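import Mathlib
import Pool.Agent.H773.IE.SR

/-!
# The law along a list of outcomes; no ties (project IE)
-/

set_option autoImplicit false

open MeasureTheory Set Filter Topology
open scoped ENNReal

namespace Pool.Agent.H747.IE

open Pool.Agent.H773.IE

variable {m : ℕ}

theorem measurable_nxtL (s : Sta m) (b : Bool) : Measurable (nxtL s b) := by
  unfold nxtL
  rw [measurable_pi_iff]
  intro i
  by_cases h : i = win s b
  · subst h
    simp only [Function.update_self]
    exact (measurable_pi_apply _).sub (measurable_pi_apply _)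
  · simp only [Function.update_of_ne h]
    exact measurable_pi_apply _

theorem t_lawp (_hex : S_ex) (hlaw : S_law) (hirr : S_irr) : S_lawp := by
  intro m hm s hs q hq p
  induction p generalizing s q with
  | nil =>
    intro A hA
    refine ⟨by simp [Cyl], measurable_id, ?_⟩
    simp [Cyl, runL, prP, runQ]
  | cons b p ih =>
    intro A hA
    have hs' := hirr m hm s hs b
    have hq' : ∀ i, 0 < nxtQ s b q i := nxtQ_pos hq b
    have hih := ih (nxt s b) hs' (nxtQ s b q) hq' A hA
    obtain ⟨h1, h2, h3⟩ := hih
    have hlt : MeasurableSet {lam : Fin (m + 1) → ℝ | lam (los s b) < lam (win s b)} :=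
      measurableSet_lt (measurable_pi_apply _) (measurable_pi_apply _)
    refine ⟨?_, ?_, ?_⟩
    · exact hlt.inter (measurable_nxtL s b h1)
    · exact h2.comp (measurable_nxtL s b)
    · have hB : MeasurableSet {lam | Cyl p (nxt s b) lam ∧ runL p (nxt s b) lam ∈ A} :=
        h1.inter (h2 hA)
      have hset : {lam : Fin (m + 1) → ℝ | Cyl (b :: p) s lam ∧ runL (b :: p) s lam ∈ A} =
          {lam | lam (los s b) < lam (win s b) ∧
            Function.update lam (win s b) (lam (win s b) - lam (los s b)) ∈
              {lam | Cyl p (nxt s b) lam ∧ runL p (nxt s b) lam ∈ A}} := by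
        ext lam
        simp only [Set.mem_ofPred_eq, Cyl, runL, nxtL]
        tauto
      rw [hset, hlaw (m + 1) (los s b) (win s b) (win_ne_los hm hs b).symm q hq _ hB]
      have hn : Function.update q (los s b) (q (los s b) + q (win s b)) = nxtQ s b q := rfl
      rw [hn, h3, ← mul_assoc]
      have hp : prP (b :: p) s q = pr s b q * prP p (nxt s b) (nxtQ s b q) := rfl
      rw [hp, ENNReal.ofReal_mul (pr_nonneg s hq b)]
      rfl

theorem prP_pos (s : Sta m) {q : Fin (m + 1) → ℝ} (hq : ∀ i, 0 < q i) (p : List Bool) :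
    0 < prP p s q := by
  induction p generalizing s q with
  | nil => simp [prP]
  | cons b p ih =>
    have h1 := hq (los s b)
    have h2 := hq (win s b)
    have h3 := ih (nxt s b) (nxtQ_pos (s := s) hq b)
    simp only [prP, pr]
    positivity

/-- Hyperplanes `lam a = lam b` are null sets. -/
theorem volume_eq_zero {n : ℕ} (a b : Fin n) (hab : a ≠ b) :
    (volume : Measure (Fin n → ℝ)) {lam | lam a = lam b} = 0 := by
  have h1 : {lam : Fin n → ℝ | lam a = lam b} =
      ((LinearMap.ker ((LinearMap.proj a : (Fin n → ℝ) →ₗ[ℝ] ℝ) - LinearMap.proj b) :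
        Submodule ℝ (Fin n → ℝ)) : Set (Fin n → ℝ)) := by
    ext lam
    simp [sub_eq_zero]
  rw [h1]
  apply Measure.addHaar_submodule
  intro h
  have h2 : (Pi.single a 1 : Fin n → ℝ) ∈
      LinearMap.ker ((LinearMap.proj a : (Fin n → ℝ) →ₗ[ℝ] ℝ) - LinearMap.proj b) := by
    rw [h]; trivial
  simp [hab.symm] at h2

theorem t_tie (hex : S_ex) (hlawp : S_lawp) : S_tie := by
  intro m hm s hs q hq
  unfold NoTie
  rw [ae_all_iff]
  intro p
  have hne : et (run p s) ≠ eb (run p s) := by
    intro heq
    have h1 := (hlawp m hm s hs q hq (p ++ [true]) univ MeasurableSet.univ).2.2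
    have hempty : {lam : Fin (m + 1) → ℝ | Cyl (p ++ [true]) s lam ∧
        runL (p ++ [true]) s lam ∈ univ} = ∅ := by
      ext lam
      simp only [Set.mem_ofPred_eq, Set.mem_univ, and_true, Set.mem_empty_iff_false, iff_false]
      rw [Cyl_append]
      rintro ⟨-, h2, -⟩
      simp only [los, win, if_true, heq] at h2
      exact lt_irrefl _ h2
    rw [hempty, measure_empty] at h1
    have hpr : IsProbabilityMeasure (EE (runQ (p ++ [true]) s q)) :=
      (hex (m + 1) _ (runQ_pos hq _)).2.1
    rw [measure_univ, mul_one] at h1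
    have h2 := prP_pos s hq (p ++ [true])
    rw [eq_comm, ENNReal.ofReal_eq_zero] at h1
    linarith
  have hA : MeasurableSet {lam : Fin (m + 1) → ℝ | lam (et (run p s)) = lam (eb (run p s))} :=
    measurableSet_eq_fun (measurable_pi_apply _) (measurable_pi_apply _)
  have h1 := (hlawp m hm s hs q hq p _ hA).2.2
  have hac : EE (runQ p s q) ≪ volume := (hex (m + 1) _ (runQ_pos hq _)).2.2.2.1
  rw [hac (volume_eq_zero _ _ hne), mul_zero] at h1
  rw [ae_iff]
  refine measure_mono_null ?_ h1
  intro lam hlam
  simp only [Set.mem_ofPred_eq, ne_eq, Classical.not_imp, not_not] at hlam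
  exact hlam

end Pool.Agent.H747.IE
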