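import Mathlib
import Pool.Agent.H773.IE.SM

/-!
# Lebesgue points of equivariant functions (project IE)
-/

set_option autoImplicit false

open MeasureTheory Set Filter Topology
open scoped ENNReal

namespace Pool.Agent.H747.IE

open Pool.Agent.H773.IE

section Leb

variable {n : ℕ} {G H : Type} [Group G] [NormedAddCommGroup H] [InnerProductSpace ℝ H]

theorem follows_tr (T : ℝ → ℝ) (P : Fin n → Set ℝ) (τ : Fin n → ℝ)
    (htr : ∀ j, ∀ x ∈ P j, T x = x + τ j) (w : List (Fin n)) :
    ∀ x, Follows T P w x → T^[w.length] x = x + tr τ w := by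
  induction w with
  | nil =>
    intro x _
    simp [tr]
  | cons j w ih =>
    intro x hx
    rw [List.length_cons, Function.iterate_succ_apply, ih (T x) hx.2, htr j x hx.1]
    simp [tr, add_assoc]

theorem follows_word (T : ℝ → ℝ) (P : Fin n → Set ℝ) (U : G →* (H →L[ℝ] H))
    (g : Fin n → G) (F : ℝ → H) (w : List (Fin n)) :
    ∀ x, (∀ m j, T^[m] x ∈ P j → F (T^[m + 1] x) = U (g j) (F (T^[m] x))) →
      Follows T P w x → F (T^[w.length] x) = U (wprod g w) (F x) := by
  induction w with
  | nil =>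
    intro x _ _
    simp [wprod]
  | cons j w ih =>
    intro x hx hw
    have h1 := ih (T x) (fun m i hm => by
      have := hx (m + 1) i (by rwa [Function.iterate_succ_apply])
      rwa [Function.iterate_succ_apply, Function.iterate_succ_apply (f := T) (n := m)] at this) hw.2
    rw [List.length_cons, Function.iterate_succ_apply, h1]
    have h2 := hx 0 j hw.1
    rw [Function.iterate_zero, id, zero_add, Function.iterate_one] at h2
    rw [h2, wprod, map_mul]
    rfl

theorem ae_equiv (T : ℝ → ℝ) (hT : MeasurePreserving T leb leb) (P : Fin n → Set ℝ)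
    (U : G →* (H →L[ℝ] H)) (g : Fin n → G) (F : ℝ → H)
    (h : ∀ j, ∀ᵐ x ∂leb, x ∈ P j → F (T x) = U (g j) (F x)) :
    ∀ᵐ x ∂leb, ∀ m j, T^[m] x ∈ P j → F (T^[m + 1] x) = U (g j) (F (T^[m] x)) := by
  rw [ae_all_iff]
  intro m
  rw [ae_all_iff]
  intro j
  filter_upwards [(hT.iterate m).quasiMeasurePreserving.ae (h j)] with x hx hm
  rw [Function.iterate_succ_apply']
  exact hx hm

omit [InnerProductSpace ℝ H] in
/-- Lebesgue points, in the form with epsilon and delta. -/
theorem leb_points (f : ℝ → H) (hf : LocallyIntegrable f volume) :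
    ∀ᵐ x ∂(volume : Measure ℝ), ∀ η : ℝ, 0 < η → ∃ r : ℝ, 0 < r ∧ ∀ A B : ℝ, A < B →
      x ∈ Icc A B → B - A < r → ∫ y in Icc A B, ‖f y - f x‖ ≤ η * (B - A) := by
  filter_upwards [IsUnifLocDoublingMeasure.ae_tendsto_average_norm_sub (μ := volume) hf 1]
    with x hx η hη
  by_contra hcon
  push Not at hcon
  have hcon' : ∀ k : ℕ, ∃ A B : ℝ, A < B ∧ x ∈ Icc A B ∧ B - A < 1 / ((k : ℝ) + 1) ∧
      η * (B - A) < ∫ y in Icc A B, ‖f y - f x‖ :=
    fun k => hcon (1 / ((k : ℝ) + 1)) (by positivity)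
  choose a b hab hxab hlt hint using hcon'
  have hlim : Tendsto (fun k => b k - a k) atTop (𝓝 0) := by
    refine squeeze_zero (fun k => by linarith [hab k]) (fun k => (hlt k).le) ?_
    exact tendsto_one_div_add_atTop_nhds_zero_nat
  have h1 := hx (l := atTop) (fun k => (a k + b k) / 2) (fun k => (b k - a k) / 2) (by
      rw [tendsto_nhdsWithin_iff]
      refine ⟨by simpa using hlim.div_const 2, Eventually.of_forall fun k => ?_⟩
      have := hab k
      rw [mem_Ioi]
      linarith) (Eventually.of_forall fun k => by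
      have h2 := hxab k
      rw [one_mul, Real.closedBall_eq_Icc]
      constructor <;> [have := h2.1; have := h2.2] <;> linarith)
  have h2 : ∀ k, η ≤ ⨍ y in Metric.closedBall ((a k + b k) / 2) ((b k - a k) / 2), ‖f y - f x‖ := by
    intro k
    have h3 : Metric.closedBall ((a k + b k) / 2) ((b k - a k) / 2) = Icc (a k) (b k) := by
      rw [Real.closedBall_eq_Icc]
      congr 1 <;> ring
    have h4 : 0 < b k - a k := by linarith [hab k]
    rw [h3, setAverage_eq, Measure.real, Real.volume_Icc, smul_eq_mul,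
      ENNReal.toReal_ofReal h4.le, inv_mul_eq_div, le_div_iff₀ h4]
    exact (hint k).le
  have h5 := ge_of_tendsto' h1 h2
  linarith

omit [InnerProductSpace ℝ H] in
/-- A good point of a piece of a box. -/
theorem box_est (F : ℝ → H) (hF : StronglyMeasurable F) (hb : ∀ x, ‖F x‖ ≤ 1) (x A B u l t η : ℝ)
    (hl : 0 < l) (hu : A ≤ u) (hul : u + l ≤ B) (hut : A ≤ u + t) (hult : u + l + t ≤ B)
    (hint : ∫ y in Icc A B, ‖F y - F x‖ ≤ η * (B - A)) (p : ℝ → Prop)
    (hp : ∀ᵐ y ∂(volume.restrict (Ico u (u + l))), p y) :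
    ∃ y, p y ∧ (‖F y - F x‖ + ‖F (y + t) - F x‖) * l ≤ 2 * (η * (B - A)) := by
  have hh : StronglyMeasurable fun y => ‖F y - F x‖ := (hF.sub stronglyMeasurable_const).norm
  have hh2 : StronglyMeasurable fun y => ‖F (y + t) - F x‖ :=
    ((hF.comp_measurable (measurable_id.add_const t)).sub stronglyMeasurable_const).norm
  have hbd : ∀ y, ‖F y - F x‖ ≤ 2 := fun y => by
    have := norm_sub_le (F y) (F x)
    linarith [hb y, hb x]
  have hi : ∀ C D : ℝ, IntegrableOn (fun y => ‖F y - F x‖) (Icc C D) volume := fun C D =>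
    Measure.integrableOn_of_bounded (M := 2) (by simp)
      hh.aestronglyMeasurable (Eventually.of_forall fun y => by
        rw [Real.norm_of_nonneg (norm_nonneg _)]; exact hbd y)
  have hi1 : IntegrableOn (fun y => ‖F y - F x‖) (Ico u (u + l)) volume :=
    (hi u (u + l)).mono_set Ico_subset_Icc_self
  have hi2 : IntegrableOn (fun y => ‖F (y + t) - F x‖) (Ico u (u + l)) volume :=
    Measure.integrableOn_of_bounded (M := 2) (by simp)
      hh2.aestronglyMeasurable (Eventually.of_forall fun y => by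
        rw [Real.norm_of_nonneg (norm_nonneg _)]; exact hbd (y + t))
  have hne : volume.restrict (Ico u (u + l)) ≠ 0 := by
    rw [Ne, Measure.restrict_eq_zero, Real.volume_Ico]
    simp [hl]
  obtain ⟨y, hy, hle⟩ := exists_notMem_null_le_average (N := {y | ¬ p y}) hne (hi1.add hi2) hp
  have hpy : p y := by
    by_contra h
    exact hy h
  refine ⟨y, hpy, ?_⟩
  have h1 : ∫ y in Ico u (u + l), ‖F y - F x‖ ≤ η * (B - A) := by
    refine le_trans (setIntegral_mono_set (hi A B) (ae_of_all _ fun y => norm_nonneg _) ?_) hint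
    exact (Ico_subset_Icc_self.trans (Icc_subset_Icc hu hul)).eventuallyLE
  have h2 : ∫ y in Ico u (u + l), ‖F (y + t) - F x‖ ≤ η * (B - A) := by
    have h3 : ∫ y in Ico u (u + l), ‖F (y + t) - F x‖ = ∫ y in Ico (u + t) (u + l + t), ‖F y - F x‖ := by
      rw [integral_Ico_eq_integral_Ioo, integral_Ico_eq_integral_Ioo,
        ← integral_Ioc_eq_integral_Ioo, ← integral_Ioc_eq_integral_Ioo,
        ← intervalIntegral.integral_of_le (by linarith),
        ← intervalIntegral.integral_of_le (by linarith)]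
      exact intervalIntegral.integral_comp_add_right (fun y => ‖F y - F x‖) t
    rw [h3]
    refine le_trans (setIntegral_mono_set (hi A B) (ae_of_all _ fun y => norm_nonneg _) ?_) hint
    exact (Ico_subset_Icc_self.trans (Icc_subset_Icc hut hult)).eventuallyLE
  have h4 : (⨍ a in Ico u (u + l), ((fun y => ‖F y - F x‖) + fun y => ‖F (y + t) - F x‖) a) * l ≤
      2 * (η * (B - A)) := by
    rw [setAverage_eq, Measure.real, Real.volume_Ico, smul_eq_mul]
    have h5 : (ENNReal.ofReal (u + l - u)).toReal = l := by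
      rw [ENNReal.toReal_ofReal (by linarith)]; ring
    rw [h5]
    have h6 : ∫ a in Ico u (u + l), ((fun y => ‖F y - F x‖) + fun y => ‖F (y + t) - F x‖) a =
        (∫ y in Ico u (u + l), ‖F y - F x‖) + ∫ y in Ico u (u + l), ‖F (y + t) - F x‖ :=
      integral_add hi1 hi2
    rw [h6, mul_comm, ← mul_assoc, mul_inv_cancel₀ hl.ne', one_mul]
    linarith
  refine le_trans ?_ h4
  exact mul_le_mul_of_nonneg_right hle hl.le

end Leb

theorem t_leb : S_leb := by
  intro G H _ _ _ _ U hU n T P τ hS c hc a b u l w hbox hab g F hF hb heq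
  have hloc : LocallyIntegrable F volume :=
    (memLp_top_of_bound hF.aestronglyMeasurable 1 (Eventually.of_forall hb)).locallyIntegrable le_top
  have h1 : ∀ᵐ x ∂leb, ∀ η : ℝ, 0 < η → ∃ r : ℝ, 0 < r ∧ ∀ A B : ℝ, A < B →
      x ∈ Icc A B → B - A < r → ∫ y in Icc A B, ‖F y - F x‖ ≤ η * (B - A) :=
    ae_restrict_of_ae (leb_points F hloc)
  have h2 := ae_equiv T hS.mp P U g F heq
  filter_upwards [h1] with x hx δ hδ
  obtain ⟨r, hr, hr'⟩ := hx (c * δ / 2) (by positivity)
  refine ⟨r, hr, fun k hxk hk i => ?_⟩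
  have hB := hbox k
  have hpos : 0 < b k - a k := by linarith [hB.lt]
  have hint := hr' (a k) (b k) hB.lt ⟨hxk.1, hxk.2.le⟩ hk
  have hlen := hB.len i
  have hl : 0 < l k i := lt_of_lt_of_le (by positivity) hlen
  have hsub := hB.sub i
  have hret := hB.ret i
  have hp : ∀ᵐ y ∂(volume.restrict (Ico (u k i) (u k i + l k i))),
      F (y + tr τ (w k i)) = U (wprod g (w k i)) (F y) := by
    have h3 : volume.restrict (Ico (u k i) (u k i + l k i)) ≤ leb :=
      Measure.restrict_mono (Ico_subset_Ico (by linarith [(hab k).1]) (by linarith [(hab k).2]))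
        le_rfl
    have h4 : ∀ᵐ y ∂(volume.restrict (Ico (u k i) (u k i + l k i))),
        y ∈ Ico (u k i) (u k i + l k i) := ae_restrict_mem measurableSet_Ico
    filter_upwards [ae_mono h3 h2, h4] with y hy hy'
    have h5 := hB.itin i y hy'
    rw [← follows_tr T P τ hS.trans _ y h5]
    exact follows_word T P U g F _ y hy h5
  obtain ⟨y, hy, hyl⟩ := box_est F hF hb x (a k) (b k) (u k i) (l k i) (tr τ (w k i)) (c * δ / 2)
    hl hsub.1 hsub.2 hret.1 hret.2 hint _ hp
  have h6 : ‖U (wprod g (w k i)) (F x) - F x‖ ≤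
      ‖F y - F x‖ + ‖F (y + tr τ (w k i)) - F x‖ := by
    have h7 : U (wprod g (w k i)) (F x) - F x =
        U (wprod g (w k i)) (F x - F y) + (F (y + tr τ (w k i)) - F x) := by
      rw [hy, map_sub]; abel
    rw [h7]
    refine le_trans (norm_add_le _ _) ?_
    rw [hU, norm_sub_rev]
  refine le_trans h6 ?_
  have h8 : (‖F y - F x‖ + ‖F (y + tr τ (w k i)) - F x‖) * (c * (b k - a k)) ≤
      δ * (c * (b k - a k)) := by
    calc (‖F y - F x‖ + ‖F (y + tr τ (w k i)) - F x‖) * (c * (b k - a k))
        ≤ (‖F y - F x‖ + ‖F (y + tr τ (w k i)) - F x‖) * l k i :=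
          mul_le_mul_of_nonneg_left hlen (by positivity)
      _ ≤ 2 * (c * δ / 2 * (b k - a k)) := hyl
      _ = δ * (c * (b k - a k)) := by ring
  exact le_of_mul_le_mul_right h8 (by positivity)

end Pool.Agent.H747.IE
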